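import Pool.Agent.X35.GG.Two
import Pool.Agent.X35.GG.Clus

/-!
# Almost all of the finite Goldbach graph lies in boundedly many pieces of bounded diameter

There are constants `c > 0` and `K` such that for every `A` and all large `n` the following holds for
both `G_n` and `G(n)`.  After the deletion of at most `n / log ^ A n` vertices every remaining vertex has
at least `c n` remaining vertices within distance `2`; in particular the remaining graph has at most `K`
connected components, and each of them has diameter at most `5 K` and at least `c n` vertices.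

Proof.  The circle method (a theorem on almost all even numbers) shows that all but `n / log ^ A n` of
the vertices `a` have `≫ S(a) n / log ^ 2 n` neighbours, and that most of these are again of this form.
So there are `≫ S(a) n ^ 2 / log ^ 4 n` paths of length two from `a` that avoid the deleted vertices.
An upper bound sieve of dimension four shows that the number of paths of length two from `a` to `c` is
`≪ S(a) n / log ^ 4 n` in mean square over `c`.  By the inequality of Cauchy and Schwarz the end points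
of the paths are `≫ n` vertices.
-/

set_option autoImplicit false

namespace Pool.Agent.Results.MP_443e5f_co.BoundedlyManyClusters

/-- the vertices `0, 2, 4, …, 2 n` of the finite Goldbach graph -/
def V₀ (n : ℕ) : Type := {a : ℕ // 2 ∣ a ∧ a ≤ 2 * n}

/-- the vertices `2, 4, …, 2 n` of the finite near Goldbach graph -/
def V₁ (n : ℕ) : Type := {a : ℕ // 2 ∣ a ∧ 2 ≤ a ∧ a ≤ 2 * n}

/-- `u` is an odd prime less than `2 n` -/
def OddPrime (n u : ℕ) : Prop := u.Prime ∧ u ≠ 2 ∧ u < 2 * n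

/-- the finite Goldbach graph `G_n`: different vertices `a`, `b` are adjacent if `(a + b) / 2` and
`|a - b| / 2` are odd primes less than `2 n` -/
def Goldbach (n : ℕ) : SimpleGraph (V₀ n) where
  Adj a b := a ≠ b ∧ OddPrime n ((a.1 + b.1) / 2) ∧ OddPrime n (((a.1 : ℤ) - b.1).natAbs / 2)
  symm := ⟨by
    rintro a b ⟨h1, h2, h3⟩
    refine ⟨h1.symm, by rwa [Nat.add_comm], ?_⟩
    have : ((b.1 : ℤ) - a.1).natAbs = ((a.1 : ℤ) - b.1).natAbs := by
      rw [← Int.natAbs_neg, neg_sub]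
    rwa [this]⟩
  loopless := ⟨fun _ h => h.1 rfl⟩

/-- the finite near Goldbach graph `G(n)`: different vertices `a`, `b` are adjacent if `(a + b) / 2` and
`|a - b| / 2` are `1` or odd primes less than `2 n` -/
def NearGoldbach (n : ℕ) : SimpleGraph (V₁ n) where
  Adj a b := a ≠ b ∧ ((a.1 + b.1) / 2 = 1 ∨ OddPrime n ((a.1 + b.1) / 2)) ∧
    (((a.1 : ℤ) - b.1).natAbs / 2 = 1 ∨ OddPrime n (((a.1 : ℤ) - b.1).natAbs / 2))
  symm := ⟨by
    rintro a b ⟨h1, h2, h3⟩
    refine ⟨h1.symm, by rwa [Nat.add_comm], ?_⟩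
    have : ((b.1 : ℤ) - a.1).natAbs = ((a.1 : ℤ) - b.1).natAbs := by
      rw [← Int.natAbs_neg, neg_sub]
    rwa [this]⟩
  loopless := ⟨fun _ h => h.1 rfl⟩

/-- One can delete a set `E` of at most `x` vertices of `G` such that in the remaining graph
* every vertex has at least `c n` vertices (itself included) within distance `2`;
* there are at most `K` connected components;
* any two vertices in the same component have distance at most `5 K`. -/
def Clustered {V : Type} (G : SimpleGraph V) (c x : ℝ) (K n : ℕ) : Prop :=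
  ∃ E : Set V, E.Finite ∧ (E.ncard : ℝ) ≤ x ∧
    (∀ a : ↥Eᶜ, c * n ≤ ({b : ↥Eᶜ | (G.induce Eᶜ).edist a b ≤ 2}.ncard : ℝ)) ∧
    Nat.card (G.induce Eᶜ).ConnectedComponent ≤ K ∧
    ∀ a b : ↥Eᶜ, (G.induce Eᶜ).Reachable a b → (G.induce Eᶜ).dist a b ≤ 5 * K

open Pool.Agent.X35.GG in
lemma clustered_of {V : Type} [Finite V] (φ : V → ℕ) (hφ : Function.Injective φ) (G : SimpleGraph V)
    (n : ℕ) (hr : ∀ v, φ v ≤ 2 * n ∧ 2 ∣ φ v) (hs : ∀ b, 2 ≤ b → b ≤ 2 * n → 2 ∣ b → ∃ v, φ v = b)
    (hadj : ∀ u v, Ad (φ u) (φ v) → G.Adj u v) (E : Finset ℕ) (c x : ℝ) (hE : (E.card : ℝ) + 1 ≤ x)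
    (h2 : ∀ a ∈ Vx n E, c * n ≤ (N2 n E a \ E).card) (K : ℕ) (hK : 1 ≤ K * c) : Clustered G c x K n := by
  classical
  set E' : Set V := {v | φ v ∈ E ∨ φ v = 0} with hE'
  have hV : ∀ a : ↥E'ᶜ, φ a.1 ∈ Vx n E := by
    intro a
    have h3 : ¬ (φ a.1 ∈ E ∨ φ a.1 = 0) := a.2
    rw [not_or] at h3
    have h4 := hr a.1
    unfold Vx
    rw [Finset.mem_filter, Finset.mem_Icc]
    refine ⟨⟨by omega, h4.1⟩, h4.2, h3.1⟩
  have hback : ∀ b ∈ Vx n E, ∃ v : ↥E'ᶜ, φ v.1 = b := by
    intro b hb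
    unfold Vx at hb
    rw [Finset.mem_filter, Finset.mem_Icc] at hb
    obtain ⟨v, hv⟩ := hs b hb.1.1 hb.1.2 hb.2.1
    refine ⟨⟨v, ?_⟩, hv⟩
    show ¬ (φ v ∈ E ∨ φ v = 0)
    rw [not_or, hv]
    exact ⟨hb.2.2, by omega⟩
  have hball : ∀ a : ↥E'ᶜ, c * n ≤ ({b : ↥E'ᶜ | (G.induce E'ᶜ).edist a b ≤ 2}.ncard : ℝ) := by
    intro a
    refine (h2 (φ a.1) (hV a)).trans ?_
    have h3 : (N2 n E (φ a.1) \ E).card ≤ {b : ↥E'ᶜ | (G.induce E'ᶜ).edist a b ≤ 2}.ncard := by
      rw [← Set.ncard_coe_finset]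
      refine le_trans (Set.ncard_le_ncard (t := (fun b : ↥E'ᶜ => φ b.1) ''
        {b : ↥E'ᶜ | (G.induce E'ᶜ).edist a b ≤ 2}) ?_ (Set.toFinite _)) (Set.ncard_image_le (Set.toFinite _))
      intro b hb
      rw [Finset.mem_coe, Finset.mem_sdiff] at hb
      obtain ⟨hb1, hb2⟩ := hb
      unfold N2 at hb1
      rw [Finset.mem_filter] at hb1
      obtain ⟨hb3, hb4, w, hw, hw1, hw2⟩ := hb1
      obtain ⟨v, hv⟩ := hback b (by unfold Vx; rw [Finset.mem_filter]; exact ⟨hb3, hb4, hb2⟩)
      obtain ⟨u, hu⟩ := hback w hw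
      refine ⟨v, ?_, hv⟩
      have a1 : (G.induce E'ᶜ).Adj a u := by
        rw [SimpleGraph.induce_adj]
        apply hadj
        rw [hu]; exact hw1
      have a2 : (G.induce E'ᶜ).Adj u v := by
        rw [SimpleGraph.induce_adj]
        apply hadj
        rw [hu, hv]; exact hw2
      show (G.induce E'ᶜ).edist a v ≤ 2
      have h5 := ((SimpleGraph.Walk.cons a1 (SimpleGraph.Walk.cons a2 SimpleGraph.Walk.nil)).edist_le)
      simpa using h5
    exact_mod_cast h3
  have hfin : Fintype ↥E'ᶜ := Fintype.ofFinite _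
  have hcard : Fintype.card ↥E'ᶜ ≤ n := by
    rw [← Nat.card_eq_fintype_card, ← Nat.card_range_of_injective (f := fun b : ↥E'ᶜ => φ b.1 / 2) (by
      intro u v h
      apply Subtype.ext
      apply hφ
      have h3 := (hr u.1).2
      have h4 := (hr v.1).2
      simp only at h
      omega)]
    have h3 : Set.range (fun b : ↥E'ᶜ => φ b.1 / 2) ⊆ ((Finset.Icc 1 n : Finset ℕ) : Set ℕ) := by
      rintro _ ⟨v, rfl⟩
      have h4 := hV v
      unfold Vx at h4
      rw [Finset.mem_filter, Finset.mem_Icc] at h4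
      rw [Finset.mem_coe, Finset.mem_Icc]
      simp only
      omega
    have h4 := Set.ncard_le_ncard h3 (Finset.finite_toSet _)
    rw [Set.ncard_coe_finset, Nat.card_Icc, Nat.add_sub_cancel] at h4
    rw [Nat.card_coe_set_eq]
    exact h4
  have hKK : ∀ a, Fintype.card ↥E'ᶜ ≤ K * {b | (G.induce E'ᶜ).edist a b ≤ 2}.ncard := by
    intro a
    have h3 := hball a
    have h4 : ((Fintype.card ↥E'ᶜ : ℕ) : ℝ) ≤ K * ({b | (G.induce E'ᶜ).edist a b ≤ 2}.ncard : ℝ) := by
      calc ((Fintype.card ↥E'ᶜ : ℕ) : ℝ) ≤ n := by exact_mod_cast hcard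
        _ = 1 * n := (one_mul _).symm
        _ ≤ (K * c) * n := mul_le_mul_of_nonneg_right hK (Nat.cast_nonneg _)
        _ = K * (c * n) := by ring
        _ ≤ _ := mul_le_mul_of_nonneg_left h3 (Nat.cast_nonneg _)
    exact_mod_cast h4
  refine ⟨E', Set.toFinite _, ?_, hball, comps _ K hKK, fun a b hab => diam _ K hKK a b hab⟩
  refine le_trans ?_ hE
  have h3 : E'.ncard ≤ E.card + 1 := by
    rw [← Set.ncard_image_of_injective E' hφ]
    have h4 : φ '' E' ⊆ ((insert 0 E : Finset ℕ) : Set ℕ) := by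
      rintro _ ⟨v, hv, rfl⟩
      rw [Finset.mem_coe, Finset.mem_insert]
      exact hv.symm
    refine (Set.ncard_le_ncard h4 (Finset.finite_toSet _)).trans ?_
    rw [Set.ncard_coe_finset]
    exact Finset.card_insert_le _ _
  exact_mod_cast h3

lemma odd_lt {n a b : ℕ} (ha : a ≤ 2 * n) (hb : b ≤ 2 * n) (hn : 1 ≤ n) (h : Pool.Agent.X35.GG.Ad a b) :
    OddPrime n ((a + b) / 2) ∧ OddPrime n (((a : ℤ) - b).natAbs / 2) := by
  obtain ⟨h1, h2, h3⟩ := h
  exact ⟨⟨h2.1, h2.2, by omega⟩, ⟨h3.1, h3.2, by omega⟩⟩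

/-- **Boundedly many clusters.**  There are constants `c > 0` and `K` such that for every `A` and all
large `n` one can delete at most `n / log ^ A n` vertices of `G_n` (and the same for `G(n)`) such that in
the remaining graph every vertex has at least `c n` vertices within distance `2`, there are at most `K`
connected components, and each of them has diameter at most `5 K`. -/
theorem result : ∃ c : ℝ, 0 < c ∧ ∃ K : ℕ, ∀ A : ℕ, ∃ N : ℕ, ∀ n : ℕ, N ≤ n →
    Clustered (Goldbach n) c (n / Real.log n ^ A) K n ∧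
    Clustered (NearGoldbach n) c (n / Real.log n ^ A) K n := by
  obtain ⟨c, hc, h1⟩ := Pool.Agent.X35.GG.two_main
  refine ⟨c, hc, ⌈1 / c⌉₊, fun A => ?_⟩
  have hK : 1 ≤ (⌈1 / c⌉₊ : ℝ) * c := by
    have h2 := Nat.le_ceil (1 / c)
    calc (1 : ℝ) = 1 / c * c := by field_simp
      _ ≤ _ := mul_le_mul_of_nonneg_right h2 hc.le
  obtain ⟨n1, h1⟩ := h1 (A + 1)
  obtain ⟨n2, h2⟩ := Pool.Agent.X35.GG.ev_log (A + 1)
  have h3 := (Real.tendsto_log_atTop.comp (tendsto_natCast_atTop_atTop (R := ℝ))).eventually_ge_atTop 2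
  obtain ⟨n3, h3⟩ := Filter.eventually_atTop.1 h3
  refine ⟨n1 + n2 + n3 + 4, fun n hn => ?_⟩
  obtain ⟨E, hE1, hE2⟩ := h1 n (by omega)
  obtain ⟨c2, -⟩ := h2 n (by omega)
  have c3 : 2 ≤ Real.log n := h3 n (by omega)
  have hn0 : (4 : ℝ) ≤ n := by exact_mod_cast (by omega : 4 ≤ n)
  have hx : (E.card : ℝ) + 1 ≤ n / Real.log n ^ A := by
    set L := Real.log n with hL
    have hL0 : 0 < L := by linarith
    have h4 : (n : ℝ) / L ^ (A + 1) ≤ (n / L ^ A) / 2 := by
      rw [pow_succ, ← div_div]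
      exact div_le_div_of_nonneg_left (by positivity) (by norm_num) c3
    have h5 : 1 ≤ (n : ℝ) / L ^ A / 2 := by
      have h6 : √(n : ℝ) * √(n : ℝ) = n := Real.mul_self_sqrt (by linarith)
      have h7 : 2 ≤ √(n : ℝ) := by
        rw [Real.le_sqrt (by norm_num) (by linarith)]
        linarith
      have h8 : L ^ A ≤ √(n : ℝ) := le_trans (pow_le_pow_right₀ (by linarith) (Nat.le_succ _)) c2
      rw [div_div, le_div_iff₀ (by positivity), one_mul]
      calc L ^ A * 2 ≤ √(n : ℝ) * √(n : ℝ) := mul_le_mul h8 h7 (by norm_num) (by positivity)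
        _ = n := h6
    linarith
  constructor
  · have hfin : Finite (V₀ n) := by
      apply Finite.of_injective (fun v : V₀ n => (⟨v.1, by have := v.2.2; omega⟩ : Fin (2 * n + 1)))
      intro u v h
      apply Subtype.ext
      exact congrArg Fin.val h
    apply clustered_of (fun v : V₀ n => v.1) (fun u v h => Subtype.ext h) (Goldbach n) n
      (fun v => ⟨v.2.2, v.2.1⟩) (fun b _ hb2 hb3 => ⟨⟨b, hb3, hb2⟩, rfl⟩) _ E c _ hx hE2 _ hK
    intro u v h
    exact ⟨fun h' => h.1 (by rw [h']), odd_lt u.2.2 v.2.2 (by omega) h⟩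
  · have hfin : Finite (V₁ n) := by
      apply Finite.of_injective (fun v : V₁ n => (⟨v.1, by have := v.2.2.2; omega⟩ : Fin (2 * n + 1)))
      intro u v h
      apply Subtype.ext
      exact congrArg Fin.val h
    apply clustered_of (fun v : V₁ n => v.1) (fun u v h => Subtype.ext h) (NearGoldbach n) n
      (fun v => ⟨v.2.2.2, v.2.1⟩) (fun b hb1 hb2 hb3 => ⟨⟨b, hb3, hb1, hb2⟩, rfl⟩) _ E c _ hx hE2 _ hK
    intro u v h
    have h4 := odd_lt u.2.2.2 v.2.2.2 (by omega) h
    exact ⟨fun h' => h.1 (by rw [h']), Or.inr h4.1, Or.inr h4.2⟩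

end Pool.Agent.Results.MP_443e5f_co.BoundedlyManyClusters
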