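import Pool.Agent.X35.GG.Low

/-!
# The finite Goldbach graphs and the finite near Goldbach graphs have diameter at least 5

For all `n ≥ 341` both graphs `G_n` and `G(n)` have diameter at least `5` (possibly infinite), so every
constant `C` as in the question is at least `5`.  This agrees with the computations, which give diameter
at most `5`.

Proof.  Every edge `{a, b}` changes the parity of the half, since `(a + b) / 2` is odd.  All neighbours of
a vertex `a`, not a multiple of `3`, for which `a + 3` and `a - 3` are proper multiples of `5` and `7`,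
are multiples of `3`, and two multiples of `3` are not adjacent except `0` and `6` in `G_n`.  So the
distance of `52` and `122` in `G(n)` and that of `52` and `682` in `G_n` is odd and not `1` or `3`.
-/

set_option autoImplicit false

namespace Pool.Agent.Results.MP_443e5f_co.DiameterAtLeastFive

/-- the vertices `0, 2, 4, …, 2 n` of the finite Goldbach graph -/
def V₀ (n : ℕ) : Type := {a : ℕ // 2 ∣ a ∧ a ≤ 2 * n}

/-- the vertices `2, 4, …, 2 n` of the finite near Goldbach graph -/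
def V₁ (n : ℕ) : Type := {a : ℕ // 2 ∣ a ∧ 2 ≤ a ∧ a ≤ 2 * n}

/-- `u` is an odd prime less than `2 n` -/
def OddPrime (n u : ℕ) : Prop := u.Prime ∧ u ≠ 2 ∧ u < 2 * n

/-- the finite Goldbach graph `G_n`: different vertices `a`, `b` are adjacent if `(a + b) / 2` and
`|a - b| / 2` are odd primes less than `2 n` -/
def Goldbach (n : ℕ) : SimpleGraph (V₀ n) where
  Adj a b := a ≠ b ∧ OddPrime n ((a.1 + b.1) / 2) ∧ OddPrime n (((a.1 : ℤ) - b.1).natAbs / 2)
  symm := ⟨by
    rintro a b ⟨h1, h2, h3⟩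
    refine ⟨h1.symm, by rwa [Nat.add_comm], ?_⟩
    have : ((b.1 : ℤ) - a.1).natAbs = ((a.1 : ℤ) - b.1).natAbs := by
      rw [← Int.natAbs_neg, neg_sub]
    rwa [this]⟩
  loopless := ⟨fun _ h => h.1 rfl⟩

/-- the finite near Goldbach graph `G(n)`: different vertices `a`, `b` are adjacent if `(a + b) / 2` and
`|a - b| / 2` are `1` or odd primes less than `2 n` -/
def NearGoldbach (n : ℕ) : SimpleGraph (V₁ n) where
  Adj a b := a ≠ b ∧ ((a.1 + b.1) / 2 = 1 ∨ OddPrime n ((a.1 + b.1) / 2)) ∧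
    (((a.1 : ℤ) - b.1).natAbs / 2 = 1 ∨ OddPrime n (((a.1 : ℤ) - b.1).natAbs / 2))
  symm := ⟨by
    rintro a b ⟨h1, h2, h3⟩
    refine ⟨h1.symm, by rwa [Nat.add_comm], ?_⟩
    have : ((b.1 : ℤ) - a.1).natAbs = ((a.1 : ℤ) - b.1).natAbs := by
      rw [← Int.natAbs_neg, neg_sub]
    rwa [this]⟩
  loopless := ⟨fun _ h => h.1 rfl⟩

lemma OddPrime.mod {n u : ℕ} (h : OddPrime n u) : u % 2 = 1 := by
  rcases h.1.eq_two_or_odd with h1 | h1
  · exact absurd h1 h.2.1
  · exact h1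

lemma OddPrime.not_dvd {n u p k : ℕ} (h : OddPrime n u) (hp : 2 ≤ p) (hu : u = p * k) (hk : 2 ≤ k) :
    False := by
  have h1 := (Nat.dvd_prime h.1).1 (⟨k, hu⟩ : p ∣ u)
  rcases h1 with h1 | h1
  · omega
  · rw [hu] at h1
    nlinarith

lemma parity {n : ℕ} {a b : V₀ n} (h : (Goldbach n).Adj a b) : (a.1 / 2 + b.1 / 2) % 2 = 1 := by
  have h1 := h.2.1.mod
  have ha := a.2.1
  have hb := b.2.1
  omega

lemma not_both {n : ℕ} {a b : V₀ n} (h : (Goldbach n).Adj a b) (ha : 3 ∣ a.1) (hb : 3 ∣ b.1)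
    (ha0 : a.1 ≠ 0) (hb0 : b.1 ≠ 0) : False := by
  have ha2 := a.2.1
  have hb2 := b.2.1
  exact h.2.1.not_dvd (p := 3) (k := (a.1 + b.1) / 2 / 3) (by norm_num) (by omega) (by omega)

lemma nbr {n : ℕ} {a b : V₀ n} (ha0 : 11 ≤ a.1) (ha3 : ¬ 3 ∣ a.1) (h5 : 5 ∣ a.1 + 3)
    (h7 : 7 ∣ a.1 - 3) (h : (Goldbach n).Adj a b) : 3 ∣ b.1 := by
  by_contra hb
  have ha2 := a.2.1
  have hb2 := b.2.1
  have hne : a.1 ≠ b.1 := fun h' => h.1 (Subtype.ext h')
  have hv := h.2.2.1.two_le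
  have h10 : (a.1 + b.1) % 3 = 0 ∨ ((a.1 : ℤ) - b.1) % 3 = 0 := by
    clear h5 h7 h hv
    rcases (show a.1 % 3 = 1 ∨ a.1 % 3 = 2 by omega) with e1 | e1 <;>
      rcases (show b.1 % 3 = 1 ∨ b.1 % 3 = 2 by omega) with e2 | e2 <;> omega
  rcases h10 with h6 | h6
  · exact h.2.1.not_dvd (p := 3) (k := (a.1 + b.1) / 2 / 3) (by norm_num) (by omega) (by omega)
  · by_cases h8 : ((a.1 : ℤ) - b.1).natAbs = 6
    · rcases (show b.1 = a.1 + 6 ∨ b.1 + 6 = a.1 by omega) with h9 | h9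
      · exact h.2.1.not_dvd (p := 5) (k := (a.1 + b.1) / 2 / 5) (by norm_num) (by omega) (by omega)
      · exact h.2.1.not_dvd (p := 7) (k := (a.1 + b.1) / 2 / 7) (by norm_num) (by omega) (by omega)
    · exact h.2.2.not_dvd (p := 3) (k := ((a.1 : ℤ) - b.1).natAbs / 2 / 3) (by norm_num) (by omega)
        (by omega)

lemma goldbach {n : ℕ} (a b : V₀ n) (ha : a.1 = 52) (hb : b.1 = 682) : 5 ≤ (Goldbach n).edist a b := by
  have hz : ∀ (c d : V₀ n), (Goldbach n).Adj c d → d.1 = 0 → ((c.1 / 2).Prime) := by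
    intro c d h hd
    have h1 := h.2.1.1
    rwa [hd, add_zero] at h1
  have hA : ∀ c : V₀ n, (Goldbach n).Adj a c → 3 ∣ c.1 ∧ c.1 ≠ 0 := fun c hc =>
    ⟨nbr (by omega) (by omega) (by rw [ha]; norm_num) (by rw [ha]; norm_num) hc, fun h0 => by
      have := hz a c hc h0
      rw [ha] at this
      norm_num at this⟩
  have hB : ∀ c : V₀ n, (Goldbach n).Adj b c → 3 ∣ c.1 ∧ c.1 ≠ 0 := fun c hc =>
    ⟨nbr (by omega) (by omega) (by rw [hb]; norm_num) (by rw [hb]; norm_num) hc, fun h0 => by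
      have := hz b c hc h0
      rw [hb] at this
      norm_num at this⟩
  apply Pool.Agent.X35.GG.five_le (Goldbach n) (fun c => c.1 / 2) (fun c d h => parity h)
  · simp only [ha, hb]
  · intro h
    have := (hA _ h).1
    rw [hb] at this
    norm_num at this
  · intro x y h1 h2 h3
    exact not_both h2 (hA _ h1).1 (hB _ h3.symm).1 (hA _ h1).2 (hB _ h3.symm).2

lemma near_allowed {n u p : ℕ} (hn : 2 ≤ n) (hp : 2 ≤ p) (h : u = 1 ∨ OddPrime n u) :
    Pool.Agent.X35.GG.Allowed p n u := by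
  rcases h with rfl | h
  · refine ⟨by decide, by omega, ?_⟩
    rintro ⟨k, hk, hk2⟩
    nlinarith
  · refine ⟨Nat.odd_iff.2 h.mod, by have := h.2.2; omega, ?_⟩
    rintro ⟨k, hk, hk2⟩
    exact h.not_dvd hp hk2 hk

lemma near_le {n : ℕ} (hn : 2 ≤ n) : (NearGoldbach n : SimpleGraph (V₁ n)) ≤
    (Pool.Agent.X35.GG.Sieved 7 n : SimpleGraph (V₁ n)) := by
  intro a b h
  exact ⟨h.1, fun p hp hp3 _ => ⟨h.1, near_allowed hn (by omega) h.2.1, near_allowed hn (by omega) h.2.2⟩⟩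

/-- **The diameters of `G_n` and of `G(n)` are at least 5** (possibly infinite), for all `n ≥ 341`. -/
theorem result (n : ℕ) (hn : 341 ≤ n) : 5 ≤ (Goldbach n).ediam ∧ 5 ≤ (NearGoldbach n).ediam := by
  constructor
  · exact le_trans (goldbach ⟨52, by norm_num, by omega⟩ ⟨682, by norm_num, by omega⟩ rfl rfl)
      SimpleGraph.edist_le_ediam
  · have h1 : 5 ≤ (Pool.Agent.X35.GG.Sieved 7 n : SimpleGraph (V₁ n)).edist
        ⟨52, by norm_num, by norm_num, by omega⟩ ⟨122, by norm_num, by norm_num, by omega⟩ :=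
      Pool.Agent.X35.GG.lower_pair (le_refl 7) ⟨52, by norm_num, by norm_num, by omega⟩
        ⟨122, by norm_num, by norm_num, by omega⟩ rfl rfl
    exact (h1.trans (SimpleGraph.edist_anti (near_le (by omega)))).trans SimpleGraph.edist_le_ediam

end Pool.Agent.Results.MP_443e5f_co.DiameterAtLeastFive
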