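import Pool.Agent.X29.Sh.Shifts

set_option autoImplicit false

/-!
# Goldbach graphs: runs of vertices without short edges

For `0 < δ < 1` there is `c > 0` such that for all large `n` every interval of length `n ^ δ` contains, in every even
residue class modulo every even `q ≤ n ^ (δ / 4)`, a vertex `a` such that none of the `m` consecutive vertices
`a, a + 2, …, a + 2 (m - 1)` has an edge of length at most `2 R` in `G_n` or in `G(n)`, whenever
`m (π(R) + 1) ≤ c (φ(q) / q) log n log log n`.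
-/

namespace Pool.Agent.Results.MP_443e5f_co.LocallyIsolatedVertices

open Finset Filter

/-- the vertices `0, 2, 4, …, 2 n` of the finite Goldbach graph -/
def V₀ (n : ℕ) : Type := {a : ℕ // 2 ∣ a ∧ a ≤ 2 * n}

/-- the vertices `2, 4, …, 2 n` of the finite near Goldbach graph -/
def V₁ (n : ℕ) : Type := {a : ℕ // 2 ∣ a ∧ 2 ≤ a ∧ a ≤ 2 * n}

/-- `u` is an odd prime less than `2 n` -/
def OddPrime (n u : ℕ) : Prop := u.Prime ∧ u ≠ 2 ∧ u < 2 * n

/-- the finite Goldbach graph `G_n`: different vertices `a`, `b` are adjacent if `(a + b) / 2` and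
`|a - b| / 2` are odd primes less than `2 n` -/
def Goldbach (n : ℕ) : SimpleGraph (V₀ n) where
  Adj a b := a ≠ b ∧ OddPrime n ((a.1 + b.1) / 2) ∧ OddPrime n (((a.1 : ℤ) - b.1).natAbs / 2)
  symm := ⟨by
    rintro a b ⟨h1, h2, h3⟩
    refine ⟨h1.symm, by rwa [Nat.add_comm], ?_⟩
    have : ((b.1 : ℤ) - a.1).natAbs = ((a.1 : ℤ) - b.1).natAbs := by
      rw [← Int.natAbs_neg, neg_sub]
    rwa [this]⟩
  loopless := ⟨fun _ h => h.1 rfl⟩

/-- the finite near Goldbach graph `G(n)`: different vertices `a`, `b` are adjacent if `(a + b) / 2` and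
`|a - b| / 2` are `1` or odd primes less than `2 n` -/
def NearGoldbach (n : ℕ) : SimpleGraph (V₁ n) where
  Adj a b := a ≠ b ∧ ((a.1 + b.1) / 2 = 1 ∨ OddPrime n ((a.1 + b.1) / 2)) ∧
    (((a.1 : ℤ) - b.1).natAbs / 2 = 1 ∨ OddPrime n (((a.1 : ℤ) - b.1).natAbs / 2))
  symm := ⟨by
    rintro a b ⟨h1, h2, h3⟩
    refine ⟨h1.symm, by rwa [Nat.add_comm], ?_⟩
    have : ((b.1 : ℤ) - a.1).natAbs = ((a.1 : ℤ) - b.1).natAbs := by
      rw [← Int.natAbs_neg, neg_sub]
    rwa [this]⟩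
  loopless := ⟨fun _ h => h.1 rfl⟩

/-- `a` is a vertex of both graphs and all its neighbours `b`, in `G_n` and in `G(n)`, have `|a - b| > 2 R` -/
def Lonely (n R a : ℕ) : Prop :=
  (2 ∣ a ∧ 2 ≤ a ∧ a ≤ 2 * n) ∧
    (∀ u v : V₀ n, u.1 = a → (Goldbach n).Adj u v → 2 * R < ((a : ℤ) - v.1).natAbs) ∧
    ∀ u v : V₁ n, u.1 = a → (NearGoldbach n).Adj u v → 2 * R < ((a : ℤ) - v.1).natAbs

lemma key (R s v : ℕ) (hs : 2 ∣ s) (hv : 2 ∣ v) (h1 : s ≠ v)
    (hp : ((s + v) / 2).Prime) (hd : ((s : ℤ) - v).natAbs / 2 = 1 ∨ (((s : ℤ) - v).natAbs / 2).Prime)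
    (hR : ((s : ℤ) - v).natAbs ≤ 2 * R) :
    ∃ t : ℕ, (t = 1 ∨ t.Prime) ∧ t ≤ R ∧ (((s : ℤ) + t).natAbs.Prime ∨ ((s : ℤ) + (-t)).natAbs.Prime) := by
  refine ⟨((s : ℤ) - v).natAbs / 2, hd, by omega, ?_⟩
  obtain ⟨s', rfl⟩ := hs
  obtain ⟨v', rfl⟩ := hv
  rcases lt_or_gt_of_ne h1 with h | h
  · left
    have : (((2 * s' : ℕ) : ℤ) + (((((2 * s' : ℕ) : ℤ) - ((2 * v' : ℕ) : ℤ)).natAbs / 2 : ℕ) : ℤ)).natAbs =
        (2 * s' + 2 * v') / 2 := by omega
    rw [this]
    exact hp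
  · right
    have : (((2 * s' : ℕ) : ℤ) + (-(((((2 * s' : ℕ) : ℤ) - ((2 * v' : ℕ) : ℤ)).natAbs / 2 : ℕ) : ℤ))).natAbs =
        (2 * s' + 2 * v') / 2 := by omega
    rw [this]
    exact hp

open Classical in
/-- For every `0 < δ < 1` there is `c > 0` such that for all large `n`, all even `q` with `0 < q ≤ n ^ (δ / 4)`, all even
`r`, all `m` and all `R ≤ n` with `m (π(R) + 1) ≤ c (φ(q) / q) log n log log n`, and all `y` with `y + n ^ δ ≤ 2 n` there is
`a ≡ r` modulo `q` with `y < a` and `a + 2 m ≤ y + n ^ δ` such that `a, a + 2, …, a + 2 (m - 1)` are vertices of both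
graphs, and no edge of `G_n` or `G(n)` at one of these vertices has length at most `2 R`. -/
theorem result (δ : ℝ) (hδ : 0 < δ) (hδ1 : δ < 1) : ∃ c : ℝ, 0 < c ∧ ∃ n₀ : ℕ, ∀ n : ℕ, n₀ ≤ n →
    ∀ q r : ℕ, 0 < q → Even q → (q : ℝ) ≤ (n : ℝ) ^ (δ / 4) → Even r → ∀ m R : ℕ, R ≤ n →
    (m : ℝ) * (Nat.primeCounting R + 1) ≤ c * ((q.totient : ℝ) / q) * (Real.log n * Real.log (Real.log n)) →
    ∀ y : ℕ, (y : ℝ) + (n : ℝ) ^ δ ≤ 2 * n →
    ∃ a : ℕ, a ≡ r [MOD q] ∧ y < a ∧ (a : ℝ) + 2 * m ≤ y + (n : ℝ) ^ δ ∧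
      ∀ i < m, Lonely n R (a + 2 * i) := by
  obtain ⟨c₀, hc₀, n₁, hsh⟩ := Pool.Agent.X29.Sh.shifts (δ / 4) (by positivity) (by linarith)
  obtain ⟨c, hc⟩ : ∃ c : ℝ, c = min (c₀ / 2) 1 := ⟨_, rfl⟩
  have hc0 : 0 < c := by rw [hc]; exact lt_min (by positivity) one_pos
  have hc1 : c ≤ 1 := by rw [hc]; exact min_le_right _ _
  have hc2 : 2 * c ≤ c₀ := by
    have : c ≤ c₀ / 2 := by rw [hc]; exact min_le_left _ _
    linarith
  have tlog : Tendsto (fun n : ℕ => Real.log (n : ℝ)) atTop atTop :=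
    Real.tendsto_log_atTop.comp tendsto_natCast_atTop_atTop
  have tloglog : Tendsto (fun n : ℕ => Real.log (Real.log (n : ℝ))) atTop atTop := Real.tendsto_log_atTop.comp tlog
  have tpow : ∀ a : ℝ, 0 < a → Tendsto (fun n : ℕ => (n : ℝ) ^ a) atTop atTop := fun a ha =>
    (tendsto_rpow_atTop ha).comp tendsto_natCast_atTop_atTop
  have hsm : ∀ᶠ n : ℕ in atTop, (Real.log (n : ℝ)) ^ 2 ≤ (n : ℝ) ^ (δ / 2) := by
    have h0 : (fun x : ℝ => Real.log x ^ 2) =o[atTop] fun x : ℝ => x ^ (δ / 2) := by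
      have h1 := isLittleO_log_rpow_rpow_atTop (s := δ / 2) 2 (by positivity)
      refine h1.congr' (Eventually.of_forall fun x => ?_) (Eventually.of_forall fun _ => rfl)
      exact Real.rpow_two _
    have h := h0.bound (show (0 : ℝ) < 1 by positivity)
    filter_upwards [tendsto_natCast_atTop_atTop.eventually h] with n hn
    rw [Real.norm_eq_abs, Real.norm_eq_abs, abs_of_nonneg (by positivity : (0 : ℝ) ≤ (n : ℝ) ^ (δ / 2)),
      abs_of_nonneg (by positivity : (0 : ℝ) ≤ Real.log n ^ 2), one_mul] at hn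
    exact hn
  obtain ⟨n₂, hn₂⟩ := eventually_atTop.1 ((tlog.eventually_ge_atTop 1).and
    ((tloglog.eventually_ge_atTop 0).and (((tpow (δ / 2) (by positivity)).eventually_ge_atTop 4).and hsm)))
  refine ⟨c, hc0, max n₁ (max n₂ 10), fun n hn q r hq hqe hqn hr m R hR hmR y hy => ?_⟩
  obtain ⟨g1, g2, g3, g4⟩ := hn₂ n ((le_max_left _ _).trans ((le_max_right _ _).trans hn))
  have hn10 : 10 ≤ n := (le_max_right _ _).trans ((le_max_right _ _).trans hn)
  have hn10r : (10 : ℝ) ≤ n := by exact_mod_cast hn10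
  have hn0 : (0 : ℝ) < n := by linarith
  obtain ⟨P, hP⟩ : ∃ P : ℝ, P = (n : ℝ) ^ (δ / 2) := ⟨_, rfl⟩
  rw [← hP] at g3 g4
  have hPP : (n : ℝ) ^ δ = P * P := by
    rw [hP, ← Real.rpow_add hn0]
    congr 1
    ring
  have hPP2 : (n : ℝ) ^ (2 * (δ / 4)) = P := by
    rw [hP]
    congr 1
    ring
  have hPn : P * P ≤ n := by
    rw [← hPP]
    calc (n : ℝ) ^ δ ≤ (n : ℝ) ^ (1 : ℝ) := Real.rpow_le_rpow_of_exponent_le (by linarith) hδ1.le
      _ = n := Real.rpow_one _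
  have hqr : (0 : ℝ) < q := by exact_mod_cast hq
  obtain ⟨κ, hκ⟩ : ∃ κ : ℝ, κ = (q.totient : ℝ) / q := ⟨_, rfl⟩
  have hφ : (0 : ℝ) < q.totient := by exact_mod_cast Nat.totient_pos.2 hq
  have hκ0 : 0 < κ := by rw [hκ]; positivity
  have hκ1 : κ ≤ 1 := by
    rw [hκ, div_le_one hqr]
    exact_mod_cast Nat.totient_le q
  rw [← hκ] at hmR
  have hLL : Real.log n * Real.log (Real.log n) ≤ P := by
    have h1 : Real.log (Real.log n) ≤ Real.log n := by
      have := Real.log_le_sub_one_of_pos (show 0 < Real.log n by linarith)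
      linarith
    nlinarith
  have hLL0 : 0 ≤ Real.log n * Real.log (Real.log n) := mul_nonneg (by linarith) g2
  have hm0 : (0 : ℝ) ≤ m := Nat.cast_nonneg _
  have hmP : (m : ℝ) ≤ P := by
    have h1 : (m : ℝ) ≤ m * (Nat.primeCounting R + 1) := by
      have : (0 : ℝ) ≤ Nat.primeCounting R := Nat.cast_nonneg _
      nlinarith
    have h2 : c * κ * (Real.log n * Real.log (Real.log n)) ≤ 1 * P := by
      have h3 : c * κ ≤ 1 := by nlinarith
      exact mul_le_mul h3 hLL hLL0 zero_le_one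
    linarith
  -- the set of shifts
  obtain ⟨Q, hQ⟩ : ∃ Q : Finset ℕ, Q = insert 1 ((range (R + 1)).filter Nat.Prime) := ⟨_, rfl⟩
  have hQc : Q.card ≤ Nat.primeCounting R + 1 := by
    rw [hQ]
    refine (card_insert_le _ _).trans ?_
    rw [Nat.primeCounting, Nat.primeCounting', Nat.count_eq_card_filter_range]
  obtain ⟨B, hB⟩ : ∃ B : Finset ℤ, B =
      ((range m) ×ˢ Q).image (fun x => 2 * (x.1 : ℤ) + (x.2 : ℤ)) ∪
      ((range m) ×ˢ Q).image (fun x => 2 * (x.1 : ℤ) + (-(x.2 : ℤ))) := ⟨_, rfl⟩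
  have hBc : (B.card : ℝ) ≤ c₀ * κ * (Real.log n * Real.log (Real.log n)) := by
    have h1 : B.card ≤ 2 * (m * (Nat.primeCounting R + 1)) := by
      rw [hB]
      refine (card_union_le _ _).trans ?_
      have h2 := card_image_le (s := (range m) ×ˢ Q) (f := fun x => 2 * (x.1 : ℤ) + (x.2 : ℤ))
      have h3 := card_image_le (s := (range m) ×ˢ Q) (f := fun x => 2 * (x.1 : ℤ) + (-(x.2 : ℤ)))
      rw [card_product, card_range] at h2 h3
      have h4 : m * Q.card ≤ m * (Nat.primeCounting R + 1) := Nat.mul_le_mul_left _ hQc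
      omega
    have h2 : (B.card : ℝ) ≤ 2 * ((m : ℝ) * (Nat.primeCounting R + 1)) := by exact_mod_cast h1
    refine h2.trans ?_
    have h5 : 0 ≤ κ * (Real.log n * Real.log (Real.log n)) := mul_nonneg hκ0.le hLL0
    calc 2 * ((m : ℝ) * (Nat.primeCounting R + 1)) ≤ 2 * (c * κ * (Real.log n * Real.log (Real.log n))) := by linarith
      _ = (2 * c) * (κ * (Real.log n * Real.log (Real.log n))) := by ring
      _ ≤ c₀ * (κ * (Real.log n * Real.log (Real.log n))) := mul_le_mul_of_nonneg_right hc2 h5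
      _ = _ := by ring
  have hmn : (m : ℝ) ≤ n := by nlinarith
  have hmn' : m ≤ n := by exact_mod_cast hmn
  have hQR : ∀ t ∈ Q, t ≤ n := by
    intro t ht
    rw [hQ, mem_insert, mem_filter, mem_range] at ht
    rcases ht with h | h
    · omega
    · omega
  have hBn : ∀ b ∈ B, |b| ≤ (n : ℤ) ^ 2 := by
    intro b hb
    have h3 : |b| ≤ 3 * (n : ℤ) := by
      rw [hB, mem_union, mem_image, mem_image] at hb
      rcases hb with ⟨⟨i, t⟩, h1, rfl⟩ | ⟨⟨i, t⟩, h1, rfl⟩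
      · rw [mem_product, mem_range] at h1
        have h2 := hQR t h1.2
        have h4 := h1.1
        simp only at h4 ⊢
        rw [abs_le]
        constructor <;> omega
      · rw [mem_product, mem_range] at h1
        have h2 := hQR t h1.2
        have h4 := h1.1
        simp only at h4 ⊢
        rw [abs_le]
        constructor <;> omega
    have h4 : (10 : ℤ) ≤ n := by exact_mod_cast hn10
    nlinarith
  obtain ⟨N, hN1, hN2, hN3, hN4⟩ := hsh n ((le_max_left _ _).trans hn) q hq hqn r B hBn (by rw [← hκ]; exact hBc) y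
  rw [hPP2] at hN3
  have hN0 : 0 ≤ N := by
    have : (0 : ℤ) ≤ y := Int.natCast_nonneg _
    omega
  lift N to ℕ using hN0
  have hN2' : y < N := by exact_mod_cast hN2
  have hN3' : (N : ℝ) ≤ y + 2 * P := by
    have : (((N : ℤ)) : ℝ) = (N : ℝ) := by norm_cast
    rw [this] at hN3
    exact_mod_cast hN3
  have hmod : N ≡ r [MOD q] := by
    have := (Int.natCast_modEq_iff).1 hN1
    exact this
  have heven : 2 ∣ N := by
    have h1 : N ≡ r [MOD 2] := hmod.of_dvd hqe.two_dvd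
    have h2 : 2 ∣ r := hr.two_dvd
    exact (h1.dvd_iff (dvd_refl 2)).2 h2
  have hupper : (N : ℝ) + 2 * m ≤ y + (n : ℝ) ^ δ := by
    rw [hPP]
    nlinarith
  have hN2n : N + 2 * m ≤ 2 * n := by
    have : (N : ℝ) + 2 * m ≤ 2 * n := hupper.trans hy
    exact_mod_cast this
  refine ⟨N, hmod, hN2', hupper, fun i hi => ?_⟩
  have hcon : ∀ v : ℕ, 2 ∣ v → N + 2 * i ≠ v → ((N + 2 * i + v) / 2).Prime →
      ((((N + 2 * i : ℕ) : ℤ) - v).natAbs / 2 = 1 ∨ ((((N + 2 * i : ℕ) : ℤ) - v).natAbs / 2).Prime) →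
      2 * R < (((N + 2 * i : ℕ) : ℤ) - v).natAbs := by
    intro v hv h1 hp hd
    by_contra hcon
    obtain ⟨t, ht1, ht2, ht3⟩ := key R (N + 2 * i) v (by omega) hv h1 hp hd (not_lt.1 hcon)
    have htQ : t ∈ Q := by
      rw [hQ, mem_insert, mem_filter, mem_range]
      rcases ht1 with h | h
      · exact Or.inl h
      · exact Or.inr ⟨by omega, h⟩
    rcases ht3 with h | h
    · have h2 := hN4 (2 * (i : ℤ) + (t : ℤ)) (by
        rw [hB, mem_union, mem_image]
        exact Or.inl ⟨(i, t), by rw [mem_product, mem_range]; exact ⟨hi, htQ⟩, rfl⟩)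
      apply h2
      have h5 : ((N : ℤ)) + (2 * (i : ℤ) + (t : ℤ)) = ((N + 2 * i : ℕ) : ℤ) + t := by push_cast; ring
      rw [h5]
      exact h
    · have h2 := hN4 (2 * (i : ℤ) + (-(t : ℤ))) (by
        rw [hB, mem_union, mem_image, mem_image]
        exact Or.inr ⟨(i, t), by rw [mem_product, mem_range]; exact ⟨hi, htQ⟩, rfl⟩)
      apply h2
      have h5 : ((N : ℤ)) + (2 * (i : ℤ) + (-(t : ℤ))) = ((N + 2 * i : ℕ) : ℤ) + (-t) := by push_cast; ring
      rw [h5]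
      exact h
  refine ⟨⟨by omega, by omega, by omega⟩, ?_, ?_⟩
  · intro u v hu huv
    obtain ⟨h1, h2, h3⟩ := huv
    have h4 : N + 2 * i ≠ v.1 := fun h => h1 (Subtype.ext (hu.trans h))
    rw [hu] at h2 h3
    exact hcon v.1 v.2.1 h4 h2.1 (Or.inr h3.1)
  · intro u v hu huv
    obtain ⟨h1, h2, h3⟩ := huv
    have h4 : N + 2 * i ≠ v.1 := fun h => h1 (Subtype.ext (hu.trans h))
    rw [hu] at h2 h3
    have h5 := v.2
    have h6 : ((N + 2 * i + v.1) / 2).Prime := by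
      rcases h2 with h2 | h2
      · exfalso
        omega
      · exact h2.1
    refine hcon v.1 v.2.1 h4 h6 ?_
    rcases h3 with h3 | h3
    · exact Or.inl h3
    · exact Or.inr h3.1

end Pool.Agent.Results.MP_443e5f_co.LocallyIsolatedVertices
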