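import Pool.Agent.X35.GG.Low

/-!
# The intersection of the graphs `G(p, n)` over all odd primes `p ≤ n ^ κ` has diameter 5

The near Goldbach graph `G(n)` is the intersection of the graphs `G(p, n)` over the odd primes `p` with
`p ^ 2 < 2 n`.  It was known that each `G(p, n)` is connected with diameter at most `3` and that
`G(3, n) ∩ G(5, n)` is connected with diameter at most `4`.  Here it is shown that for some `κ > 0` and
all large `n` the intersection over all odd primes `p ≤ z` is connected and has diameter exactly `5`, for
every `z` with `7 ≤ z ≤ n ^ κ`.

Proof of the upper bound.  The type of a vertex `a` is its class modulo `4` and the truth value of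
`3 ∣ a`.  Two vertices of the same type have a common neighbour by the fundamental lemma of sieve theory
(at most four classes have to be avoided modulo every prime `p ≥ 5`, and the type takes care of the
primes 2 and 3).  An edge changes both parts of the type, except for the edges `{w, w - 6}`, and such
an edge is used once if only one part of the type has to be changed.

Proof of the lower bound.  All neighbours of `52` and `122` are multiples of `3`, since `52 ± 3` and
`122 ± 3` are proper multiples of `5` or `7`; two multiples of `3` are never adjacent; and `52`, `122`
are in different parts of a bipartition.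
-/

set_option autoImplicit false

namespace Pool.Agent.Results.MP_443e5f_co.SievedDiameterFive

open Pool.Agent.X35.GG

theorem lower {z n : ℕ} (hz : 7 ≤ z) (hn : 61 ≤ n) : 5 ≤ (Sieved z n).ediam :=
  le_trans (lower_pair hz ⟨52, by norm_num, by norm_num, by omega⟩ ⟨122, by norm_num, by norm_num, by omega⟩
    rfl rfl) SimpleGraph.edist_le_ediam

/-- **The sieved near Goldbach graphs have diameter 5.**  There is `κ > 0` such that for all large `n`
and all `z` with `7 ≤ z ≤ n ^ κ` the intersection of the graphs `G(p, n)` over all odd primes `p ≤ z`
has diameter exactly `5` (in particular it is connected; `ediam` is `⊤` for graphs which are not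
connected). -/
theorem result : ∃ κ : ℝ, 0 < κ ∧ ∃ n₀ : ℕ, ∀ n z : ℕ, n₀ ≤ n → 7 ≤ z → (z : ℝ) ≤ (n : ℝ) ^ κ →
    (Sieved z n).ediam = 5 := by
  obtain ⟨κ, hκ, n₀, h⟩ := ext_ex
  refine ⟨κ, hκ, n₀ + 61, fun n z hn hz hzn => ?_⟩
  exact le_antisymm (upper (h n (by omega) z hzn) (by omega)) (lower hz (by omega))

end Pool.Agent.Results.MP_443e5f_co.SievedDiameterFive
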